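import Mathlib
import Pool.Agent.W254.LF.Stm

/-!
# Project LF: accumulation points of infinite sets of integers
-/

set_option autoImplicit false

namespace Pool.Agent.W540.LF

open NumberField Filter Topology

/-- **CPT.** -/
theorem t_CPT : Pool.Agent.W254.LF.S_CPT := by
  intro p _ k _ _ τ T hT
  let b := RingOfIntegers.basis k
  let d := Module.Free.ChooseBasisIndex ℤ (𝓞 k)
  let g : (d → ℤ_[p]) → ℂ_[p] := fun c =>
    ∑ i : d, algebraMap ℚ_[p] ℂ_[p] (c i : ℚ_[p]) * τ ((b i : 𝓞 k) : k)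
  have halg : Continuous (algebraMap ℚ_[p] ℂ_[p]) := continuous_algebraMap ℚ_[p] ℂ_[p]
  have hg : Continuous g := by
    refine continuous_finsetSum _ fun i _ => ?_
    refine Continuous.mul ?_ continuous_const
    exact halg.comp (continuous_subtype_val.comp (continuous_apply i))
  have hK : IsCompact (Set.range g) := isCompact_range hg
  have hsub : (fun x : 𝓞 k => τ x) '' T ⊆ Set.range g := by
    rintro _ ⟨x, -, rfl⟩
    refine ⟨fun i => ((b.repr x i : ℤ) : ℤ_[p]), ?_⟩
    have h1 : (x : k) = ∑ i : d, ((b.repr x i : ℤ) : k) * ((b i : 𝓞 k) : k) := by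
      have h2 : (∑ i : d, b.repr x i • b i : 𝓞 k) = x := b.sum_repr x
      conv_lhs => rw [← h2]
      rw [RingOfIntegers.coe_eq_algebraMap, map_sum]
      refine Finset.sum_congr rfl fun i _ => ?_
      rw [zsmul_eq_mul, map_mul, map_intCast]
    show ∑ i : d, algebraMap ℚ_[p] ℂ_[p] ((((b.repr x i : ℤ) : ℤ_[p])) : ℚ_[p]) *
      τ ((b i : 𝓞 k) : k) = τ (x : k)
    rw [h1, map_sum]
    refine Finset.sum_congr rfl fun i _ => ?_
    rw [map_mul, PadicInt.coe_intCast, map_intCast, map_intCast]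
  have hinj : Set.InjOn (fun x : 𝓞 k => τ x) T := by
    intro x _ y _ h
    exact RingOfIntegers.ext (τ.injective h)
  obtain ⟨t₀, -, ht₀⟩ := (hT.image hinj).exists_accPt_of_subset_isCompact hK hsub
  exact ⟨t₀, accPt_iff_frequently_nhdsNE.mp ht₀⟩

end Pool.Agent.W540.LF
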